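import Pool.Agent.Helper65.OH.Goals
import Pool.Agent.Helper69.Ram.PAR

/-!
# Packet PAR5 (helper65, ONEHEAD): the parameters for large `n`
-/

namespace Pool.Agent.Helper59.OH

open Pool.Agent.Helper65.LinSpace Pool.Agent.Helper78.Mpc Pool.Agent.Helper28.Ram
open Pool.Agent.Helper65.OH Finset Filter

theorem PAR5 : PAR5_stmt := by
  refine ⟨?_, ?_⟩
  · intro c D
    filter_upwards [ev_ll_cube ((8 * c + 8) * (8 * c + 8)), eventually_ge_atTop (c + 20),
      ev_ll_ge D] with n h1 h2 h3
    refine ⟨h3, ?_⟩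
    intro S hS
    have hl := ll_pos n
    have hL : (8 * c + 8) * (8 * c + 8) ≤ n / ll n := by
      rw [Nat.le_div_iff_mul_le hl]
      refine le_trans (Nat.mul_le_mul_left _ ?_) h1
      nlinarith [Nat.mul_le_mul hl hl]
    have hs : 8 * c + 8 ≤ Nat.sqrt (n / ll n) := Nat.le_sqrt.2 hL
    have hs2 : Nat.sqrt (n / ll n) * Nat.sqrt (n / ll n) ≤ n / ll n := Nat.sqrt_le _
    have hs3 : Nat.sqrt (n / ll n) ≤ n / ll n := Nat.sqrt_le_self _
    have hLn : n / ll n ≤ n := Nat.div_le_self _ _
    have hSs : S ≤ Nat.sqrt (n / ll n) := by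
      unfold gR at hS
      omega
    refine ⟨?_, ?_, ?_⟩
    · unfold LW
      refine le_trans ?_ hs2
      generalize Nat.sqrt (n / ll n) = s at *
      calc c * (4 * S + 8) ≤ c * (4 * s + 8) := Nat.mul_le_mul_left _ (by omega)
        _ ≤ s * s := by nlinarith
    · have e : 2 ^ (2 * ll n) = 2 ^ ll n * 2 ^ ll n := by rw [two_mul, pow_add]
      have hl2 := lt_two_pow_ll n
      have h4 : (n + 1) * (n + 1) ≤ 2 ^ (2 * ll n) := by
        rw [e]
        exact Nat.mul_le_mul hl2 hl2
      refine le_trans ?_ h4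
      unfold LW
      nlinarith
    · intro x hx
      have h5 : S + 1 ≤ Nat.log 2 x + 1 := by
        rw [hx]
        omega
      refine (Nat.pow_le_pow_right (by norm_num) h5).trans ?_
      have h6 := two_pow_log_le x 1
      rw [one_mul] at h6
      refine h6.trans ?_
      exact Nat.pow_le_pow_right (by omega) (by norm_num)
  · intro n
    have h2 := lt_two_pow_ll n
    have h3 : n + 2 ≤ 2 ^ (ll n + 1) := by
      rw [pow_succ]
      omega
    have h4 : (n + 2) ^ 4 ≤ (2 ^ (ll n + 1)) ^ 4 := Nat.pow_le_pow_left h3 4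
    rw [← pow_mul] at h4
    refine lt_of_le_of_lt h4 (Nat.pow_lt_pow_right (by norm_num) ?_)
    unfold kap
    omega

end Pool.Agent.Helper59.OH
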